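import Pool.Agent.N638.ET.Cplx

/-!
# Towers of height three whose top entry runs through the rational numbers: exponential polynomials
# with values in the linear forms in logarithms

The number of the problem is the member `r = 1` of the family `√2 ^ (√2 ^ (r √2))`, `r` rational.

We consider all the exponential polynomials `F(x) = ∑ exp(lam_i x) B_i(x)`, `lam_i` complex numbers,
`B_i` complex polynomials of degree `< D`, at the rational numbers `x = k / q` (for `q = 1`: the
values at the integers of a linear recurrence sequence).  Assume that the sequences are not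
degenerate: `lam_i - lam_j` is no rational multiple of `π i` for `i ≠ j`.  Either all the values
`F(r)`, `r` rational, are linear forms in `1` and logarithms of algebraic numbers, with algebraic
coefficients, or for every `q` at most `(4 N) ^ (1 - δ)` of any `N` consecutive integers `k` are such
that `F(k / q)` is such a form, where `δ > 0` depends only on the number of terms and on `D`.  The
first case only occurs trivially: `exp(lam_i)` is algebraic and all the coefficients of `B_i` are
such forms, for every `i` with `B_i ≠ 0`.  (As `0` is a linear form, this contains a weak form of the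
theorem of Skolem, Mahler and Lech for nondegenerate recurrences.)

In particular the products of towers `∏ a_j ^ (b_j ^ (c_j + (k / q) e_j))` are transcendental for
all but `(4 N) ^ (1 - δ)` of `N` consecutive `k` (`δ` depends only on the number of factors), and a
single tower `a ^ (b ^ (c + (k / q) e))`, for instance `√2 ^ (√2 ^ ((k / q) √2))`, for all but
`√(8 N)` of them.

Proof.  A set of more than `(4 N) ^ (1 - 2 ^ (-d))` integers of an interval of length `N` contains a
cube `k_0 + {∑ ε_i h_i}` of dimension `d` with `h_i > 0` (Hilbert).  On cubes, the exponential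
polynomials with transcendental `exp(lam_i)` cannot be linear forms in logarithms, even if one adds
terms with algebraic `exp(lam_i)`: this is `TH160.TowP.part1G` of the starting library, whose main
input is the hyperplane case of the linear subgroup theorem of Waldschmidt and Roy.  The terms with
algebraic `exp(lam_i)` are determined by difference operators with algebraic coefficients.
-/

set_option autoImplicit false

namespace Pool.Agent.Results.MP_93d8d2_nt.ExponentialPolynomials

open Polynomial

/-- The linear combinations, with algebraic coefficients, of `1` and of logarithms of algebraic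
numbers. -/
noncomputable def LogForms : Submodule (algebraicClosure ℚ ℂ) ℂ :=
  Submodule.span (algebraicClosure ℚ ℂ) ({1} ∪ {z : ℂ | IsAlgebraic ℚ (Complex.exp z)})

/-- `F(x) = ∑ exp(lam_i x) B_i(x)`. -/
noncomputable def F {m : ℕ} (lam : Fin m → ℂ) (B : Fin m → ℂ[X]) (x : ℂ) : ℂ :=
  ∑ i, Complex.exp (lam i * x) * (B i).eval x

/-- The trivial case: if `B_i ≠ 0` then `exp(lam_i)` is algebraic and the coefficients of `B_i` are
in `LogForms`. -/
def Trivial {m : ℕ} (lam : Fin m → ℂ) (B : Fin m → ℂ[X]) : Prop :=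
  ∀ i, B i ≠ 0 → IsAlgebraic ℚ (Complex.exp (lam i)) ∧ ∀ n, (B i).coeff n ∈ LogForms

open Classical in
/-- **Main result.** -/
theorem result :
    (∀ m D : ℕ, ∃ δ : ℝ, 0 < δ ∧ ∀ lam : Fin m → ℂ,
      (∀ i j, i ≠ j → ∀ r : ℚ, lam i - lam j ≠ r * (Real.pi * Complex.I)) →
      ∀ B : Fin m → ℂ[X], (∀ i, (B i).degree < D) →
        (Trivial lam B → ∀ r : ℚ, F lam B r ∈ LogForms) ∧
        (¬ Trivial lam B → ∀ (q : ℕ) (M : ℤ) (N : ℕ), 0 < q → 0 < N →
          (((Finset.Ioc M (M + N)).filter fun k : ℤ => F lam B ((k : ℂ) / q) ∈ LogForms).card : ℝ) ≤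
            (4 * N : ℝ) ^ (1 - δ))) ∧
    (∀ m : ℕ, ∃ δ : ℝ, 0 < δ ∧ ∀ a b c e : Fin m → ℝ, (∀ j, 0 < a j) → (∀ j, 0 < b j) →
      (∀ i j, i ≠ j → b i ^ e i ≠ b j ^ e j) → (∃ j, a j ≠ 1 ∧ Transcendental ℚ (b j ^ e j)) →
      ∀ (q : ℕ) (M : ℤ) (N : ℕ), 0 < q → 0 < N →
        (((Finset.Ioc M (M + N)).filter fun k : ℤ =>
          ((Real.log (∏ j, a j ^ (b j ^ (c j + (k : ℝ) / q * e j))) : ℝ) : ℂ) ∈ LogForms).card :
            ℝ) ≤ (4 * N : ℝ) ^ (1 - δ)) ∧
    (∀ a b c e : ℝ, 0 < a → a ≠ 1 → 0 < b → Transcendental ℚ (b ^ e) →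
      ∀ (q : ℕ) (M : ℤ) (N : ℕ), 0 < q → 0 < N →
        (((Finset.Ioc M (M + N)).filter fun k : ℤ =>
          ((Real.log (a ^ (b ^ (c + (k : ℝ) / q * e))) : ℝ) : ℂ) ∈ LogForms).card : ℝ) ≤
            √(8 * N)) ∧
    (∀ (q : ℕ) (M : ℤ) (N : ℕ), 0 < q → 0 < N →
      (((Finset.Ioc M (M + N)).filter fun k : ℤ =>
        IsAlgebraic ℚ (√2 ^ (√2 ^ ((k : ℝ) / q * √2)))).card : ℝ) ≤ √(8 * N)) ∧
    (∀ z γ δ : ℂ, z ∉ LogForms → IsAlgebraic ℚ γ → IsAlgebraic ℚ δ → δ ≠ 0 →
      Transcendental ℚ (Complex.exp (γ + δ * z))) := by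
  have hlt : Pool.Agent.W254.PA.Hyp (k := Pool.Agent.W254.Ab.QA ℂ) LogForms :=
    Pool.Agent.TH160.TowP.hyp_lt
  have key : ∀ m D : ℕ, ∃ δ : ℝ, 0 < δ ∧ ∀ lam : Fin m → ℂ,
      (∀ i j, i ≠ j → ∀ r : ℚ, lam i - lam j ≠ r * (Real.pi * Complex.I)) →
      ∀ B : Fin m → ℂ[X], (∀ i, (B i).degree < D) →
        (Trivial lam B → ∀ r : ℚ, F lam B r ∈ LogForms) ∧
        (¬ Trivial lam B → ∀ (q : ℕ) (M : ℤ) (N : ℕ), 0 < q → 0 < N →
          (((Finset.Ioc M (M + N)).filter fun k : ℤ => F lam B ((k : ℂ) / q) ∈ LogForms).card : ℝ) ≤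
            (4 * N : ℝ) ^ (1 - δ)) := by
    intro m D
    obtain ⟨δ, hδ, h⟩ := Pool.Agent.N638.ET.count_main hlt m D
    refine ⟨δ, hδ, fun lam hlam B hB => ⟨fun htr r => Pool.Agent.N638.ET.triv_mem htr r,
      fun hnt q M N hq hN => ?_⟩⟩
    have hZ : ∀ i, Pool.Agent.TH160.TowP.Z D (B i) := by
      intro i k hk
      apply coeff_eq_zero_of_degree_lt
      refine lt_of_lt_of_le (hB i) ?_
      exact_mod_cast hk
    exact h lam hlam B hZ hnt q M N hq hN
  have single : ∀ a b c e : ℝ, 0 < a → a ≠ 1 → 0 < b → Transcendental ℚ (b ^ e) →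
      ∀ (q : ℕ) (M : ℤ) (N : ℕ), 0 < q → 0 < N →
        (((Finset.Ioc M (M + N)).filter fun k : ℤ =>
          ((Real.log (a ^ (b ^ (c + (k : ℝ) / q * e))) : ℝ) : ℂ) ∈ LogForms).card : ℝ) ≤
            √(8 * N) := by
    intro a b c e ha ha1 hb htr q M N hq hN
    have hqR : (q : ℝ) ≠ 0 := by exact_mod_cast hq.ne'
    have hla : Real.log a ≠ 0 := by
      intro h
      rcases Real.log_eq_zero.mp h with h5 | h5 | h5
      · exact ha.ne' h5
      · exact ha1 h5
      · linarith
    set v : ℂ := ((Real.log a * b ^ c : ℝ) : ℂ) with hv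
    set τ : ℂ := ((b ^ (e / q) : ℝ) : ℂ) with hτ
    have hv0 : v ≠ 0 := by
      rw [hv, Complex.ofReal_ne_zero]
      exact mul_ne_zero hla (Real.rpow_pos_of_pos hb c).ne'
    have hτt : Transcendental ℚ τ := by
      intro h
      apply Pool.Agent.H137R5.Tow.trC htr
      have h1 : ((b ^ e : ℝ) : ℂ) = τ ^ q := by
        rw [hτ, ← Complex.ofReal_pow, ← Real.rpow_natCast, ← Real.rpow_mul hb.le]
        congr 2
        field_simp
      rw [h1]
      exact h.pow q
    have h1 := Pool.Agent.N638.ET.count_one hlt hv0 hτt M N hN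
    refine le_trans ?_ h1
    have : ((Finset.Ioc M (M + N)).filter fun k : ℤ =>
          ((Real.log (a ^ (b ^ (c + (k : ℝ) / q * e))) : ℝ) : ℂ) ∈ LogForms).card ≤
        ((Finset.Ioc M (M + N)).filter fun k : ℤ => v * τ ^ k ∈ LogForms).card := by
      apply Finset.card_le_card
      intro k hk
      rw [Finset.mem_filter] at hk ⊢
      refine ⟨hk.1, ?_⟩
      have h2 := hk.2
      have h3 : Real.log (a ^ (b ^ (c + (k : ℝ) / q * e))) =
          Real.log a * b ^ c * (b ^ (e / q)) ^ k := by
        rw [Real.log_rpow ha, Real.rpow_add hb, ← Real.rpow_intCast, ← Real.rpow_mul hb.le]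
        have : (k : ℝ) / q * e = e / q * k := by ring
        rw [this]
        ring
      rw [h3] at h2
      have h4 : ((Real.log a * b ^ c * (b ^ (e / q)) ^ k : ℝ) : ℂ) = v * τ ^ k := by
        rw [hv, hτ]
        push_cast
        ring
      rwa [h4] at h2
    exact_mod_cast this
  refine ⟨key, ?_, single, ?_, ?_⟩
  · intro m
    obtain ⟨δ, hδ, h⟩ := key m 1
    refine ⟨δ, hδ, ?_⟩
    intro a b c e ha hb hbe hex q M N hq hN
    set lam : Fin m → ℂ := fun j => ((e j * Real.log (b j) : ℝ) : ℂ) with hlam
    set B : Fin m → ℂ[X] := fun j => C ((Real.log (a j) * b j ^ c j : ℝ) : ℂ) with hB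
    have hexp : ∀ j, Complex.exp (lam j) = ((b j ^ e j : ℝ) : ℂ) := by
      intro j
      rw [hlam]
      simp only
      rw [← Complex.ofReal_exp, Real.rpow_def_of_pos (hb j), mul_comm]
    have h1 := (h lam (by
      intro i j hij r hr
      rw [hlam] at hr
      simp only at hr
      have him := congrArg Complex.im hr
      have hre := congrArg Complex.re hr
      simp only [Complex.sub_re, Complex.sub_im, Complex.ofReal_re, Complex.ofReal_im,
        Complex.mul_re, Complex.mul_im, Complex.I_re, Complex.I_im, Complex.ratCast_re,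
        Complex.ratCast_im, mul_zero, mul_one, zero_mul, add_zero,
        sub_self] at him hre
      apply hbe i j hij
      rw [Real.rpow_def_of_pos (hb i), Real.rpow_def_of_pos (hb j)]
      congr 1
      linarith) B (by
      intro j
      exact lt_of_le_of_lt degree_C_le (by norm_num))).2 ?_ q M N hq hN
    · refine le_trans ?_ h1
      have : ((Finset.Ioc M (M + N)).filter fun k : ℤ =>
            ((Real.log (∏ j, a j ^ (b j ^ (c j + (k : ℝ) / q * e j))) : ℝ) : ℂ) ∈
              LogForms).card ≤
          ((Finset.Ioc M (M + N)).filter fun k : ℤ =>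
            F lam B ((k : ℂ) / q) ∈ LogForms).card := by
        apply Finset.card_le_card
        intro k hk
        rw [Finset.mem_filter] at hk ⊢
        refine ⟨hk.1, ?_⟩
        have h2 := hk.2
        have h3 : ((Real.log (∏ j, a j ^ (b j ^ (c j + (k : ℝ) / q * e j))) : ℝ) : ℂ) =
            F lam B ((k : ℂ) / q) := by
          rw [Real.log_prod (fun j _ => (Real.rpow_pos_of_pos (ha j) _).ne')]
          unfold F
          push_cast
          apply Finset.sum_congr rfl
          intro j _
          have h4 : Complex.exp (lam j * ((k : ℂ) / q)) =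
              ((Real.exp (Real.log (b j) * ((k : ℝ) / q * e j)) : ℝ) : ℂ) := by
            rw [hlam]
            push_cast
            congr 1
            ring
          rw [h4, hB]
          simp only
          rw [eval_C, Real.log_rpow (ha j), Real.rpow_add (hb j),
            Real.rpow_def_of_pos (hb j) ((k : ℝ) / q * e j)]
          push_cast
          ring
        rwa [h3] at h2
      exact_mod_cast this
    · intro htr
      obtain ⟨j, hj1, hjt⟩ := hex
      have hla : Real.log (a j) ≠ 0 := by
        intro h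
        rcases Real.log_eq_zero.mp h with h5 | h5 | h5
        · exact (ha j).ne' h5
        · exact hj1 h5
        · linarith [ha j]
      have hBj : B j ≠ 0 := by
        rw [hB]
        simp only
        rw [Ne, C_eq_zero, Complex.ofReal_eq_zero]
        exact mul_ne_zero hla (Real.rpow_pos_of_pos (hb j) _).ne'
      have h2 := (htr j hBj).1
      rw [hexp j] at h2
      exact Pool.Agent.H137R5.Tow.trC hjt h2
  · intro q M N hq hN
    have h2 : (0 : ℝ) < √2 := Real.sqrt_pos.mpr two_pos
    have h21 : √2 ≠ 1 := by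
      intro h
      have := Real.sq_sqrt (show (0 : ℝ) ≤ 2 by norm_num)
      rw [h] at this
      norm_num at this
    have h2a : IsAlgebraic ℚ √2 := by
      refine IsAlgebraic.of_pow (n := 2) two_pos ?_
      rw [Real.sq_sqrt (by norm_num)]
      exact_mod_cast (isAlgebraic_natCast 2 : IsAlgebraic ℚ ((2 : ℕ) : ℝ))
    have htr : Transcendental ℚ (√2 ^ √2) :=
      Pool.Agent.H137R5.Tow.gs h2 h21 h2a h2a irrational_sqrt_two
    have h1 := single √2 √2 0 √2 h2 h21 h2 htr q M N hq hN
    refine le_trans ?_ h1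
    have : ((Finset.Ioc M (M + N)).filter fun k : ℤ =>
          IsAlgebraic ℚ (√2 ^ (√2 ^ ((k : ℝ) / q * √2)))).card ≤
        ((Finset.Ioc M (M + N)).filter fun k : ℤ =>
          ((Real.log (√2 ^ (√2 ^ (0 + (k : ℝ) / q * √2))) : ℝ) : ℂ) ∈ LogForms).card := by
      apply Finset.card_le_card
      intro k hk
      rw [Finset.mem_filter] at hk ⊢
      refine ⟨hk.1, ?_⟩
      rw [zero_add]
      refine Submodule.subset_span (Or.inr ?_)
      change IsAlgebraic ℚ (Complex.exp _)
      rw [← Complex.ofReal_exp, Real.exp_log (Real.rpow_pos_of_pos h2 _)]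
      exact Pool.Agent.H462R2.PiE.alg_ofReal hk.2
    exact_mod_cast this
  · intro z γ δ hz hγ hδ hδ0 halg
    apply hz
    have h1 : γ + δ * z ∈ LogForms := Submodule.subset_span (Or.inr halg)
    have h2 : γ ∈ LogForms := by
      have := Pool.Agent.TH160.TowP.V_mul (V := LogForms) hγ
        (Submodule.subset_span (Or.inl rfl) : (1 : ℂ) ∈ LogForms)
      rwa [mul_one] at this
    have h3 : δ * z ∈ LogForms := by
      have := LogForms.sub_mem h1 h2
      rwa [add_sub_cancel_left] at this
    exact Pool.Agent.TH160.TowP.mul_mem_iff hδ hδ0 h3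

end Pool.Agent.Results.MP_93d8d2_nt.ExponentialPolynomials
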