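import Pool.Agent.N733.TW.E

/-!
# Towers `a ^ (n ^ c)` whose middle entry runs through a multiplicative group of finite rank

Towers of height three `a ^ (b ^ c)` with `a > 0`, `a ≠ 1`, `c` algebraic and irrational (for `a = √2`,
`b ^ c = √2 ^ √2` the number of the problem).  The results on file treat all the positive integers
`b = n ≤ x`.  Here `b` runs through a group generated by `r` algebraic numbers, for example through the
integers composed of `r` given primes, and `b ^ c` may be replaced by the elements of any group of rank `r`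
(or any coset of it) which contains no algebraic number besides `1`.

For every `k ≠ 0` at most `r + 1` vectors `b` are such that both the towers with the exponents `b` and
`b + k` are not free.  Hence among the towers in a box of side `M` (in `ℤ^r` or `ℚ^r`) at most
`≈ √(r + 1) (2 M) ^ (r / 2)` of the `M ^ r` towers are not free.

Proof.  The solutions `y` of `x₁ y, x₂ y ∈ L`, `L` the space of linear forms in `1` and logarithms of
algebraic numbers, lie in a plane over the field of algebraic numbers if `x₂ / x₁` is transcendental, by the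
strong six exponentials theorem (starting files, helper301).  The elements of a plane are of the form
`u (α + β τ)`, `τ` transcendental; if they are pairwise not proportional over the algebraic numbers, they
satisfy no multiplicative relation of degree `0`, by unique factorisation in polynomials in `τ`; but any
`r + 2` elements of a coset of a group of rank `r` satisfy such a relation.
-/

set_option autoImplicit false

namespace Pool.Agent.Results.MP_93d8d2_nt.MiddleEntriesInGroups

open scoped Pointwise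

/-- linear forms in `1` and logarithms of algebraic numbers, with algebraic coefficients:
`z = γ + β₁ l₁ + ... + βₘ lₘ` with `γ`, the `βᵢ` and the exponentials of the `lᵢ` algebraic -/
def LogForm (z : ℂ) : Prop :=
  ∃ (m : ℕ) (γ : ℂ) (β l : Fin m → ℂ), IsAlgebraic ℚ γ ∧ (∀ i, IsAlgebraic ℚ (β i)) ∧
    (∀ i, IsAlgebraic ℚ (Complex.exp (l i))) ∧ z = γ + ∑ i, β i * l i

/-- `t` is *free*: its logarithm is not such a form, i.e. `t` is not of the form
`e ^ γ * α₁ ^ β₁ * ... * αₘ ^ βₘ` -/
def Free (t : ℝ) : Prop := ¬ LogForm ((Real.log t : ℝ) : ℂ)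

theorem mem_of_logForm {z : ℂ} (h : LogForm z) : z ∈ Pool.Agent.H301R2.SSE.Lt := by
  obtain ⟨m, γ, β, l, hγ, hβ, hl, rfl⟩ := h
  have h1 : ∀ a z : ℂ, IsAlgebraic ℚ a → z ∈ Pool.Agent.H301R2.SSE.Lt →
      a * z ∈ Pool.Agent.H301R2.SSE.Lt := by
    intro a z ha hz
    have := Submodule.smul_mem Pool.Agent.H301R2.SSE.Lt
      (⟨a, Pool.Agent.H301R2.SSE.mem_QB.mpr ha⟩ : Pool.Agent.H301R2.SSE.QB) hz
    exact this
  refine Submodule.add_mem _ ?_ (Submodule.sum_mem _ (fun i _ => h1 _ _ (hβ i) ?_))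
  · have h2 := h1 γ 1 hγ (Submodule.subset_span (Or.inl rfl))
    rwa [mul_one] at h2
  · exact Submodule.subset_span (Or.inr (hl i))

/-- `e ^ {λ_1}, ..., e ^ {λ_r}` are multiplicatively independent modulo the algebraic numbers: no
`e ^ (m_1 λ_1 + ... + m_r λ_r)` with integers `m_i`, not all `0`, is algebraic -/
def Indep {r : ℕ} (lam : Fin r → ℂ) : Prop :=
  ∀ m : Fin r → ℤ, m ≠ 0 → Transcendental ℚ (Complex.exp (∑ i, (m i : ℂ) * lam i))

open Classical in
/-- **Main result.**
(0) Free numbers are transcendental.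
(1) Let `e ^ {λ_1}, ..., e ^ {λ_r}` be multiplicatively independent modulo the algebraic numbers, `x₁ ≠ 0`,
`x₂ / x₁` transcendental and `v ≠ 0`. For at most `r + 1` rational vectors `b` both `x₁ y` and `x₂ y`,
`y = v e ^ (b_1 λ_1 + ... + b_r λ_r)`, are linear forms in `1` and logarithms of algebraic numbers.
(2) For every finite set `B` of rational vectors, the number `n` of the `b` in `B` for which
`v e ^ (b_1 λ_1 + ... + b_r λ_r)` is such a form satisfies `n ^ 2 ≤ n + (r + 1) (|B - B| - 1)`.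
(3) Let `a > 0`, `a ≠ 1`, let `c` be a real algebraic irrational number and let `α_1, ..., α_r` be
multiplicatively independent positive real algebraic numbers.  For all `k ≠ 0`, at most `r + 1` rational
vectors `b` are such that neither of the towers `a ^ ((∏ α_i ^ {b_i}) ^ c)`,
`a ^ ((∏ α_i ^ {b_i + k_i}) ^ c)` is free; among the towers with `b` in a finite set `B` the number `n` of those
which are not free satisfies `n ^ 2 ≤ n + (r + 1) (|B - B| - 1)`.
(4) Let `S` be a finite set of primes and let `n` be the number of the positive integers `m ≤ x` composed of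
primes in `S` for which `a ^ (m ^ c)` is not free.  Then
`n ^ 2 ≤ n + (|S| + 1) ((2 ⌊log_2 x⌋ + 1) ^ |S| - 1)`. -/
theorem result :
    (∀ t : ℝ, 0 < t → Free t → Transcendental ℚ t) ∧
    (∀ (r : ℕ) (lam : Fin r → ℂ), Indep lam →
      ∀ v : ℂ, v ≠ 0 →
        (∀ x₁ x₂ : ℂ, x₁ ≠ 0 → Transcendental ℚ (x₂ / x₁) →
          {b : Fin r → ℚ | LogForm (x₁ * (v * Complex.exp (∑ i, (b i : ℂ) * lam i))) ∧
            LogForm (x₂ * (v * Complex.exp (∑ i, (b i : ℂ) * lam i)))}.encard ≤ r + 1) ∧
        (∀ B : Finset (Fin r → ℚ),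
          (B.filter fun b => LogForm (v * Complex.exp (∑ i, (b i : ℂ) * lam i))).card ^ 2 ≤
            (B.filter fun b => LogForm (v * Complex.exp (∑ i, (b i : ℂ) * lam i))).card +
              (r + 1) * ((B - B).card - 1))) ∧
    (∀ a c : ℝ, 0 < a → a ≠ 1 → IsAlgebraic ℚ c → Irrational c →
      (∀ (r : ℕ) (α : Fin r → ℝ), (∀ i, 0 < α i) → (∀ i, IsAlgebraic ℚ (α i)) →
        (∀ m : Fin r → ℤ, m ≠ 0 → ∏ i, α i ^ m i ≠ 1) →
          (∀ k : Fin r → ℚ, k ≠ 0 → {b : Fin r → ℚ |
            ¬ Free (a ^ ((∏ i, α i ^ (b i : ℝ)) ^ c)) ∧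
            ¬ Free (a ^ ((∏ i, α i ^ ((b i : ℝ) + k i)) ^ c))}.encard ≤ r + 1) ∧
          (∀ B : Finset (Fin r → ℚ),
            (B.filter fun b => ¬ Free (a ^ ((∏ i, α i ^ (b i : ℝ)) ^ c))).card ^ 2 ≤
              (B.filter fun b => ¬ Free (a ^ ((∏ i, α i ^ (b i : ℝ)) ^ c))).card +
                (r + 1) * ((B - B).card - 1))) ∧
      (∀ S : Finset ℕ, (∀ p ∈ S, p.Prime) → ∀ x : ℕ,
        ((Finset.Icc 1 x).filter fun n : ℕ => n.primeFactors ⊆ S ∧ ¬ Free (a ^ ((n : ℝ) ^ c))).card ^ 2 ≤
          ((Finset.Icc 1 x).filter fun n : ℕ => n.primeFactors ⊆ S ∧ ¬ Free (a ^ ((n : ℝ) ^ c))).card +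
            (S.card + 1) * ((2 * Nat.log 2 x + 1) ^ S.card - 1))) := by
  refine ⟨fun t ht hf hal => hf ⟨1, 0, fun _ => 1, fun _ => ((Real.log t : ℝ) : ℂ),
      isAlgebraic_zero, fun _ => isAlgebraic_one, fun _ => ?_, ?_⟩,
    fun r lam hlam v hv => ⟨fun x₁ x₂ hx hx12 => ?_, fun B => ?_⟩,
    fun a c ha ha1 hca hc => ⟨fun r α hα hal hind => ⟨fun k hk => ?_, fun B => ?_⟩,
      fun S hS x => ?_⟩⟩
  · rw [← Complex.ofReal_exp, Real.exp_log ht]
    exact hal.algebraMap (A := ℂ)
  · rw [Fin.sum_univ_one, zero_add, one_mul]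
  · refine (Set.encard_mono ?_).trans (Pool.Agent.N733.TW.few_El lam hlam x₁ x₂ v hx hx12 hv)
    intro b hb
    exact ⟨mem_of_logForm hb.1, mem_of_logForm hb.2⟩
  · have := Pool.Agent.N733.TW.count_El lam hlam v hv
      (B.filter fun b => LogForm (v * Complex.exp (∑ i, (b i : ℂ) * lam i))) B
      (Finset.filter_subset _ _) (by
        intro b hb
        exact mem_of_logForm (Finset.mem_filter.1 hb).2)
    convert this using 5
  · have hla : ((Real.log a : ℝ) : ℂ) ≠ 0 := by
      rw [Complex.ofReal_ne_zero]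
      exact Real.log_ne_zero_of_pos_of_ne_one ha ha1
    have hT := Pool.Agent.N733.TW.tower_ind α hα hal hind c hca hc
    have h1 := Pool.Agent.N733.TW.few_El
      (fun i => (c : ℂ) * ((Real.log (α i) : ℝ) : ℂ)) hT 1
      (Pool.Agent.N733.TW.El (fun i => (c : ℂ) * ((Real.log (α i) : ℝ) : ℂ)) k)
      ((Real.log a : ℝ) : ℂ) one_ne_zero (by
        rw [div_one]
        exact Pool.Agent.N733.TW.El_tr _ hT k hk) hla
    refine (Set.encard_mono ?_).trans h1
    intro b hb
    obtain ⟨hb1, hb2⟩ := hb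
    have e1 := mem_of_logForm (not_not.1 hb1)
    have e2 := mem_of_logForm (not_not.1 hb2)
    rw [Pool.Agent.N733.TW.tower_log ha α hα c b] at e1
    have e3 : (a ^ ((∏ i, α i ^ ((b i : ℝ) + k i)) ^ c)) =
        (a ^ ((∏ i, α i ^ (((b + k) i : ℚ) : ℝ)) ^ c)) := by
      simp only [Pi.add_apply, Rat.cast_add]
    rw [e3, Pool.Agent.N733.TW.tower_log ha α hα c (b + k), Pool.Agent.N733.TW.El_add] at e2
    refine ⟨by rw [one_mul]; exact e1, ?_⟩
    have e4 : ∀ A B C : ℂ, B * (A * C) = A * (C * B) := fun A B C => by ring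
    rw [e4]
    exact e2
  · have hla : ((Real.log a : ℝ) : ℂ) ≠ 0 := by
      rw [Complex.ofReal_ne_zero]
      exact Real.log_ne_zero_of_pos_of_ne_one ha ha1
    have hT := Pool.Agent.N733.TW.tower_ind α hα hal hind c hca hc
    have := Pool.Agent.N733.TW.count_El (fun i => (c : ℂ) * ((Real.log (α i) : ℝ) : ℂ)) hT
      ((Real.log a : ℝ) : ℂ) hla
      (B.filter fun b => ¬ Free (a ^ ((∏ i, α i ^ (b i : ℝ)) ^ c))) B
      (Finset.filter_subset _ _) (by
        intro b hb
        have e1 := mem_of_logForm (not_not.1 (Finset.mem_filter.1 hb).2)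
        rwa [Pool.Agent.N733.TW.tower_log ha α hα c b] at e1)
    convert this using 5
  · have hla : ((Real.log a : ℝ) : ℂ) ≠ 0 := by
      rw [Complex.ofReal_ne_zero]
      exact Real.log_ne_zero_of_pos_of_ne_one ha ha1
    refine Pool.Agent.N733.TW.sint S hS ((Real.log a : ℝ) : ℂ) (c : ℂ) hla
      (hca.algebraMap (A := ℂ)) ?_ x _ ?_ ?_
    · intro q hq
      apply hc
      refine ⟨q, ?_⟩
      exact_mod_cast hq.symm
    · intro n hn
      obtain ⟨h1, h2, _⟩ := Finset.mem_filter.1 hn
      rw [Finset.mem_Icc] at h1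
      exact ⟨h1.1, h1.2, h2⟩
    · intro n hn
      obtain ⟨h1, _, h3⟩ := Finset.mem_filter.1 hn
      rw [Finset.mem_Icc] at h1
      have e1 := mem_of_logForm (not_not.1 h3)
      have hn0 : (0 : ℝ) < n := by exact_mod_cast h1.1
      have e2 : ((Real.log (a ^ ((n : ℝ) ^ c)) : ℝ) : ℂ) =
          ((Real.log a : ℝ) : ℂ) * Complex.exp ((c : ℂ) * ((Real.log n : ℝ) : ℂ)) := by
        rw [Real.log_rpow ha, Real.rpow_def_of_pos hn0, mul_comm (Real.log (n : ℝ)) c]
        push_cast
        ring
      rwa [e2] at e1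

end Pool.Agent.Results.MP_93d8d2_nt.MiddleEntriesInGroups
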