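import Pool.Agent.N733.SC.Tow

/-!
# Towers `a ^ (f(n) ^ c)` and `a ^ (e ^ {g(n)})` with multiplicative `f` and additive `g`

Towers of height three `a ^ (b ^ c)`, `a > 0`, `a ≠ 1`, `c` algebraic and irrational (for `a = √2`,
`b ^ c = √2 ^ √2` the number of the problem), whose middle entry `b` is the value `f(n)` of a multiplicative
function with positive algebraic values, for example Euler's function or the sum of divisors.  The result on
file treats `b = n`; it says nothing about the values of Euler's function, which form a set of density `0`.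

More generally let `F` be a multiplicative function with complex values `≠ 0` such that among any four
primes there are two for which the quotient of the values of `F` is transcendental.  For all complex `v ≠ 0`
at most `C x (log log x) ^ 3 / log x` of the integers `n ≤ x` are such that `v F(n)` is a linear form in `1` and
logarithms of algebraic numbers.  The constant `C` is absolute.

Proof.  By the strong six exponentials theorem of D. Roy (starting files) the exceptional set contains no
grid `m p_i q_j r_k` of primes which do not divide `m`.  The argument of `Pool.Agent.TH813.Dens` shows that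
sets without such grids are thin, as few integers are divisible by the square of a large prime.
-/

set_option autoImplicit false

namespace Pool.Agent.Results.MP_93d8d2_nt.MultiplicativeMiddleEntries

/-- linear forms in `1` and logarithms of algebraic numbers, with algebraic coefficients:
`z = γ + β₁ l₁ + ... + βₘ lₘ` with `γ`, the `βᵢ` and the exponentials of the `lᵢ` algebraic -/
def LogForm (z : ℂ) : Prop :=
  ∃ (m : ℕ) (γ : ℂ) (β l : Fin m → ℂ), IsAlgebraic ℚ γ ∧ (∀ i, IsAlgebraic ℚ (β i)) ∧
    (∀ i, IsAlgebraic ℚ (Complex.exp (l i))) ∧ z = γ + ∑ i, β i * l i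

/-- `t` is *free*: its logarithm is not such a form, i.e. `t` is not of the form
`e ^ γ * α₁ ^ β₁ * ... * αₘ ^ βₘ` -/
def Free (t : ℝ) : Prop := ¬ LogForm ((Real.log t : ℝ) : ℂ)

theorem mem_of_logForm {z : ℂ} (h : LogForm z) : z ∈ Pool.Agent.H301R2.SSE.Lt := by
  obtain ⟨m, γ, β, l, hγ, hβ, hl, rfl⟩ := h
  have h1 : ∀ a z : ℂ, IsAlgebraic ℚ a → z ∈ Pool.Agent.H301R2.SSE.Lt →
      a * z ∈ Pool.Agent.H301R2.SSE.Lt := by
    intro a z ha hz
    have := Submodule.smul_mem Pool.Agent.H301R2.SSE.Lt
      (⟨a, Pool.Agent.H301R2.SSE.mem_QB.mpr ha⟩ : Pool.Agent.H301R2.SSE.QB) hz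
    exact this
  refine Submodule.add_mem _ ?_ (Submodule.sum_mem _ (fun i _ => h1 _ _ (hβ i) ?_))
  · have h2 := h1 γ 1 hγ (Submodule.subset_span (Or.inl rfl))
    rwa [mul_one] at h2
  · exact Submodule.subset_span (Or.inr (hl i))

/-- among any four primes there are two for which the values of `f` are different -/
def Spread {R : Type} (f : ℕ → R) : Prop :=
  ∀ p : Fin 4 → ℕ, Function.Injective p → (∀ i, (p i).Prime) → ∃ i j, f (p i) ≠ f (p j)

/-- a function with positive algebraic values which is multiplicative on the positive integers -/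
def Multiplicative (f : ℕ → ℝ) : Prop :=
  (∀ m n, 0 < m → 0 < n → Nat.Coprime m n → f (m * n) = f m * f n) ∧
    ∀ n, 0 < n → 0 < f n ∧ IsAlgebraic ℚ (f n)

/-- a function with algebraic values which is additive on the positive integers -/
def Additive (g : ℕ → ℝ) : Prop :=
  (∀ m n, 0 < m → 0 < n → Nat.Coprime m n → g (m * n) = g m + g n) ∧
    ∀ n, 0 < n → IsAlgebraic ℚ (g n)

theorem spread_of_inj {R : Type} (f : ℕ → R)
    (h : ∀ p q : ℕ, p.Prime → q.Prime → f p = f q → p = q) : Spread f := by
  intro p hp hp'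
  exact ⟨0, 1, fun h1 => absurd (hp (h _ _ (hp' 0) (hp' 1) h1)) (by decide)⟩

open Classical in
/-- **Main result.** There is an absolute constant `C` such that for all `x ≥ 16`:
(1) Let `F(m n) = F(m) F(n)` for coprime positive `m`, `n`, `F(n) ≠ 0`, and suppose that among any four primes
there are two with a transcendental quotient of the values of `F`.  For all complex `v ≠ 0`, at most
`C x (log log x) ^ 3 / log x` of the `n ≤ x` are such that `v F(n)` is a linear form in `1` and logarithms of
algebraic numbers.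
(2) Let `a > 0`, `a ≠ 1`, let `c` be a real algebraic irrational number and let `f` be a multiplicative function
with positive algebraic values; suppose that among any four primes there are two at which the values of `f` are
different. Then `a ^ (f(n) ^ c)` is free for all but `C x (log log x) ^ 3 / log x` of the `n ≤ x`.
(3) This applies to Euler's function and to the sum of the divisors.
(4) Let `a > 0`, `a ≠ 1` and let `g` be a real additive function with algebraic values; suppose that among any
four primes there are two at which the values of `g` are different.  Then `a ^ (e ^ {g(n)})` is free for all but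
`C x (log log x) ^ 3 / log x` of the `n ≤ x`.
(5) Free numbers are transcendental. -/
theorem result : (∃ C : ℝ, 0 ≤ C ∧
    (∀ F : ℕ → ℂ, (∀ m n, 0 < m → 0 < n → Nat.Coprime m n → F (m * n) = F m * F n) →
      (∀ n, 0 < n → F n ≠ 0) →
      (∀ p : Fin 4 → ℕ, Function.Injective p → (∀ i, (p i).Prime) →
        ∃ i j, Transcendental ℚ (F (p j) / F (p i))) →
      ∀ v : ℂ, v ≠ 0 → ∀ x : ℕ, 16 ≤ x →
        (((Finset.Icc 1 x).filter (fun n : ℕ => LogForm (v * F n))).card : ℝ) ≤
          C * x * Real.log (Real.log x) ^ 3 / Real.log x) ∧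
    (∀ a c : ℝ, 0 < a → a ≠ 1 → IsAlgebraic ℚ c → Irrational c → ∀ f : ℕ → ℝ,
      Multiplicative f → Spread f → ∀ x : ℕ, 16 ≤ x →
        (((Finset.Icc 1 x).filter (fun n : ℕ => ¬ Free (a ^ (f n ^ c)))).card : ℝ) ≤
          C * x * Real.log (Real.log x) ^ 3 / Real.log x) ∧
    (∀ a c : ℝ, 0 < a → a ≠ 1 → IsAlgebraic ℚ c → Irrational c → ∀ x : ℕ, 16 ≤ x →
        (((Finset.Icc 1 x).filter
          (fun n : ℕ => ¬ Free (a ^ ((Nat.totient n : ℝ) ^ c)))).card : ℝ) ≤
          C * x * Real.log (Real.log x) ^ 3 / Real.log x ∧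
        (((Finset.Icc 1 x).filter
          (fun n : ℕ => ¬ Free (a ^ (((∑ d ∈ n.divisors, d : ℕ) : ℝ) ^ c)))).card : ℝ) ≤
          C * x * Real.log (Real.log x) ^ 3 / Real.log x) ∧
    (∀ a : ℝ, 0 < a → a ≠ 1 → ∀ g : ℕ → ℝ, Additive g → Spread g → ∀ x : ℕ, 16 ≤ x →
        (((Finset.Icc 1 x).filter (fun n : ℕ => ¬ Free (a ^ Real.exp (g n)))).card : ℝ) ≤
          C * x * Real.log (Real.log x) ^ 3 / Real.log x)) ∧
    (∀ t : ℝ, 0 < t → Free t → Transcendental ℚ t) := by
  obtain ⟨C, hC0, hC⟩ := Pool.Agent.N733.SC.mf_count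
  have key : ∀ F : ℕ → ℂ, Pool.Agent.N733.SC.MF F → ∀ v : ℂ, v ≠ 0 → ∀ x : ℕ, 16 ≤ x →
      ∀ (P : ℕ → Prop) [DecidablePred P], (∀ n, 0 < n → P n → v * F n ∈ Pool.Agent.H301R2.SSE.Lt) →
        (((Finset.Icc 1 x).filter P).card : ℝ) ≤
          C * x * Real.log (Real.log x) ^ 3 / Real.log x := by
    intro F hF v hv x hx P _ hP
    refine le_trans ?_ (hC F hF v hv x hx)
    have : ((Finset.Icc 1 x).filter P).card ≤ ((Finset.Icc 1 x).filter
        (fun n : ℕ => v * F n ∈ Pool.Agent.H301R2.SSE.Lt)).card := by
      apply Finset.card_le_card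
      intro n hn
      rw [Finset.mem_filter, Finset.mem_Icc] at hn
      rw [Finset.mem_filter, Finset.mem_Icc]
      exact ⟨hn.1, hP n hn.1.1 hn.2⟩
    exact_mod_cast this
  have part2 : ∀ a c : ℝ, 0 < a → a ≠ 1 → IsAlgebraic ℚ c → Irrational c → ∀ f : ℕ → ℝ,
      Multiplicative f → Spread f → ∀ x : ℕ, 16 ≤ x →
        (((Finset.Icc 1 x).filter (fun n : ℕ => ¬ Free (a ^ (f n ^ c)))).card : ℝ) ≤
          C * x * Real.log (Real.log x) ^ 3 / Real.log x := by
    intro a c ha ha1 hca hc f hf hs x hx
    have hMF := Pool.Agent.N733.SC.mf_pow hf.1 (fun n hn => (hf.2 n hn).1)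
      (fun n hn => (hf.2 n hn).2) hs (c := (c : ℂ)) (hca.algebraMap (A := ℂ)) (by
        intro q hq
        apply hc
        refine ⟨q, ?_⟩
        exact_mod_cast hq.symm)
    refine key _ hMF ((Real.log a : ℝ) : ℂ) ?_ x hx _ ?_
    · rw [Complex.ofReal_ne_zero]
      exact Real.log_ne_zero_of_pos_of_ne_one ha ha1
    · intro n hn hbad
      have e1 := mem_of_logForm (not_not.1 hbad)
      have e2 : ((Real.log (a ^ (f n ^ c)) : ℝ) : ℂ) =
          ((Real.log a : ℝ) : ℂ) * Complex.exp ((c : ℂ) * ((Real.log (f n) : ℝ) : ℂ)) := by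
        rw [Real.log_rpow ha, Real.rpow_def_of_pos (hf.2 n hn).1, mul_comm (Real.log (f n)) c]
        push_cast
        ring
      rwa [e2] at e1
  refine ⟨⟨C, hC0, ?_, part2, ?_, ?_⟩, ?_⟩
  · intro F h1 h2 h3 v hv x hx
    exact key F ⟨h1, h2, h3⟩ v hv x hx _ fun n _ h => mem_of_logForm h
  · intro a c ha ha1 hca hc x hx
    constructor
    · refine part2 a c ha ha1 hca hc (fun n => (Nat.totient n : ℝ)) ⟨?_, ?_⟩ ?_ x hx
      · intro m n _ _ hmn
        simp only
        rw [Nat.totient_mul hmn]
        push_cast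
        ring
      · intro n hn
        refine ⟨?_, isAlgebraic_natCast _⟩
        change (0 : ℝ) < (Nat.totient n : ℝ)
        exact_mod_cast Nat.totient_pos.2 hn
      · refine spread_of_inj _ ?_
        intro p q hp hq h
        have h' : Nat.totient p = Nat.totient q := by exact_mod_cast h
        rw [Nat.totient_prime hp, Nat.totient_prime hq] at h'
        have := hp.pos
        have := hq.pos
        omega
    · refine part2 a c ha ha1 hca hc (fun n => ((∑ d ∈ n.divisors, d : ℕ) : ℝ)) ⟨?_, ?_⟩ ?_ x hx
      · intro m n _ _ hmn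
        simp only
        rw [Nat.Coprime.sum_divisors_mul hmn]
        push_cast
        ring
      · intro n hn
        refine ⟨?_, isAlgebraic_natCast _⟩
        have : 0 < ∑ d ∈ n.divisors, d :=
          Finset.sum_pos (fun d hd => Nat.pos_of_mem_divisors hd) ⟨1, Nat.one_mem_divisors.2 hn.ne'⟩
        change (0 : ℝ) < ((∑ d ∈ n.divisors, d : ℕ) : ℝ)
        exact_mod_cast this
      · refine spread_of_inj _ ?_
        intro p q hp hq h
        have h' : ∑ d ∈ p.divisors, d = ∑ d ∈ q.divisors, d := by exact_mod_cast h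
        rw [hp.sum_divisors, hq.sum_divisors] at h'
        omega
  · intro a ha ha1 g hg hs x hx
    have hMF := Pool.Agent.N733.SC.mf_exp (g := fun n => ((g n : ℝ) : ℂ)) (by
        intro m n hm hn hmn
        rw [hg.1 m n hm hn hmn]
        push_cast
        rfl) (fun n hn => (hg.2 n hn).algebraMap (A := ℂ)) (by
        intro p hp hp'
        obtain ⟨i, j, hij⟩ := hs p hp hp'
        exact ⟨i, j, fun h => hij (by exact_mod_cast h)⟩)
    refine key _ hMF ((Real.log a : ℝ) : ℂ) ?_ x hx _ ?_
    · rw [Complex.ofReal_ne_zero]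
      exact Real.log_ne_zero_of_pos_of_ne_one ha ha1
    · intro n hn hbad
      have e1 := mem_of_logForm (not_not.1 hbad)
      have e2 : ((Real.log (a ^ Real.exp (g n)) : ℝ) : ℂ) =
          ((Real.log a : ℝ) : ℂ) * Complex.exp ((g n : ℝ) : ℂ) := by
        rw [Real.log_rpow ha]
        push_cast
        ring
      rwa [e2] at e1
  · intro t ht hf hal
    refine hf ⟨1, 0, fun _ => 1, fun _ => ((Real.log t : ℝ) : ℂ),
      isAlgebraic_zero, fun _ => isAlgebraic_one, fun _ => ?_, ?_⟩
    · rw [← Complex.ofReal_exp, Real.exp_log ht]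
      exact hal.algebraMap (A := ℂ)
    · rw [Fin.sum_univ_one, zero_add, one_mul]

end Pool.Agent.Results.MP_93d8d2_nt.MultiplicativeMiddleEntries
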