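import Mathlib
import Pool.Agent.X255.RH.Main
import Pool.Agent.X39.Near.Ax

/-!
# The towers `x^x`, `x^(x^x)`, … at all roots of almost all integral polynomials

The problem concerns the tower `x^(x^x)` for `x = √2`, a root of the polynomial `x² - 2`. Here we consider the towers of any height whose entries
are all equal to one algebraic number `x`, and we let `x` run through ALL the roots of an integral polynomial of degree `g` (for instance `g = 2`)
which are not in `(-∞, 0]`; so `x` runs through algebraic numbers of degree `g` with all their conjugates. The powers are the principal ones, so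
for real positive `x` they are the powers of the problem.

We prove: for almost all integral polynomials with coefficients at most `T` the numbers `log x, x^x, x^(x^x), …` (the towers of heights `2`, …,
`n + 1`), at all roots `x` together, satisfy no algebraic relation over number fields whose degree and whose field degree is at most `ω(T)` and
whose height is at most `T ^ ω(T)`, where `ω(T) → ∞`; the coefficients of the relations may contain arbitrary given complex numbers
`ξ_0, ξ_1, …`.

The proof is an application of `Pool.Agent.X255.RH.main_all` (values of algebraically independent functions at the roots of almost all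
polynomials) and `Pool.Agent.X39.Near.loc_exp` (Ax's theorem); the functions `log x`, `x log x`, `x^x log x`, … are linearly independent modulo the
constants by their growth.
-/

set_option autoImplicit false

open Polynomial Filter Topology NumberField

namespace Pool.Agent.Results.MP_93d8d2_nt.TowersAtAllRoots

/-- The integral vectors `a = (a_0, …, a_g)` with `|a_i| ≤ T`. -/
noncomputable def box (g T : ℕ) : Finset (Fin (g + 1) → ℤ) := Fintype.piFinset fun _ => Finset.Icc (-(T : ℤ)) (T : ℤ)

/-- The polynomial `a_0 + a_1 x + … + a_g x^g`. -/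
noncomputable def poly {g : ℕ} (a : Fin (g + 1) → ℤ) : ℂ[X] := ∑ i, C (a i : ℂ) * X ^ (i : ℕ)

/-- The tower of height `m`: `tower 0 x = 1`, `tower 1 x = x`, `tower 2 x = x^x`, `tower 3 x = x^(x^x)`, … -/
noncomputable def tower : ℕ → ℂ → ℂ
  | 0, _ => 1
  | m + 1, x => x ^ tower m x

/-- The roots of the polynomial with the coefficients `a` which are not in `(-∞, 0]`. -/
noncomputable def roots {g : ℕ} (a : Fin (g + 1) → ℤ) : Finset ℂ := by
  classical exact (poly a).roots.toFinset.filter fun z => z ∈ Complex.slitPlane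

/-- The functions `log x` and `tower 2 x, …, tower (n + 1) x`. -/
noncomputable def values (n : ℕ) : Option (Fin n) → ℂ → ℂ
  | none => Complex.log
  | some k => tower (k + 2)

/-- The numbers `x q` satisfy no relation of degree at most `k` in each of them with coefficients `∑_{b < k} ξ_b c_b`, where the `c_b` are
integers of a number field of degree at most `k` all of whose conjugates are at most `T ^ k`, except the relations all of whose coefficients
vanish. -/
def NoRelation {Q : Type} [Fintype Q] [DecidableEq Q] (ξ : ℕ → ℂ) (k : ℕ) (T : ℝ) (x : Q → ℂ) : Prop :=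
  ∀ (F : Type) [Field F] [NumberField F], Module.finrank ℚ F ≤ k → ∀ (io : F →+* ℂ)
    (c : (Q → Fin (k + 1)) → Fin k → 𝓞 F), (∀ l b (φ : F →+* ℂ), ‖φ (c l b : F)‖ ≤ T ^ k) →
    ∑ l, (∑ b : Fin k, ξ b * io (c l b : F)) * ∏ q, x q ^ (l q : ℕ) = 0 → ∀ l, ∑ b : Fin k, ξ b * io (c l b : F) = 0

/-- The polynomial with the coefficients `a` has degree `g` and simple roots, and there is no relation between the `n + 1` numbers `log x`,
`tower 2 x, …, tower (n + 1) x` at all its roots `x` outside `(-∞, 0]` together. -/
def Good {g : ℕ} (n : ℕ) (ξ : ℕ → ℂ) (k : ℕ) (T : ℝ) (a : Fin (g + 1) → ℤ) : Prop :=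
  a (Fin.last g) ≠ 0 ∧ (poly a).Separable ∧
    NoRelation ξ k T fun q : {x // x ∈ roots a} × Option (Fin n) => values n q.2 q.1

theorem tower_succ (m : ℕ) {z : ℂ} (hz : z ≠ 0) : tower (m + 1) z = Complex.exp (tower m z * Complex.log z) := by
  rw [tower, Complex.cpow_def_of_ne_zero hz, mul_comm]

theorem tower_one (z : ℂ) : tower 1 z = z := by
  rw [tower, tower, Complex.cpow_one]

theorem tower_an (m : ℕ) : AnalyticOnNhd ℂ (tower m) Complex.slitPlane := by
  induction m with
  | zero => exact analyticOnNhd_const
  | succ m ih => exact fun z hz => AnalyticAt.cpow analyticAt_id (ih z hz) hz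

theorem an (n : ℕ) (k : Option (Fin n)) : AnalyticOnNhd ℂ (values n k) Complex.slitPlane := by
  rcases k with _ | k
  · exact fun z hz => analyticAt_clog hz
  · exact tower_an _

/-- the real towers -/
noncomputable def R : ℕ → ℝ → ℝ
  | 0, _ => 1
  | m + 1, x => x ^ R m x

theorem tower_real (m : ℕ) {x : ℝ} (hx : 0 ≤ x) : tower m (x : ℂ) = ((R m x : ℝ) : ℂ) := by
  induction m with
  | zero => rw [tower, R, Complex.ofReal_one]
  | succ m ih => rw [tower, ih, R, Complex.ofReal_cpow hx]

theorem R_step (m : ℕ) {x : ℝ} (hx : 2 ≤ x) : 1 ≤ R m x ∧ x * R m x ≤ R (m + 1) x := by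
  induction m with
  | zero =>
    refine ⟨le_rfl, ?_⟩
    have h0 : R 0 x = 1 := rfl
    change x * R 0 x ≤ x ^ R 0 x
    rw [h0, Real.rpow_one, mul_one]
  | succ m ih =>
    obtain ⟨h1, h2⟩ := ih
    have h3 : 2 ≤ R (m + 1) x := by nlinarith
    refine ⟨by linarith, ?_⟩
    have h4 : R (m + 1 + 1) x = x * x ^ (R (m + 1) x - 1) := by
      rw [R, Real.rpow_sub_one (by linarith), mul_div_cancel₀ _ (by linarith)]
    rw [h4]
    have h5 := one_add_mul_self_le_rpow_one_add (s := x - 1) (by linarith) (p := R (m + 1) x - 1) (by linarith)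
    rw [add_sub_cancel] at h5
    have h6 : R (m + 1) x ≤ 1 + (R (m + 1) x - 1) * (x - 1) := by nlinarith
    exact mul_le_mul_of_nonneg_left (h6.trans h5) (by linarith)

theorem R_lt {j J : ℕ} (h : j < J) {x : ℝ} (hx : 2 ≤ x) : x * R j x ≤ R J x := by
  induction J, h using Nat.le_induction with
  | base => exact (R_step j hx).2
  | succ J hJ ih =>
    have h1 := R_step J hx
    nlinarith [h1.1, h1.2]

theorem conn : IsPreconnected Complex.slitPlane :=
  (Complex.starConvex_one_slitPlane.isPathConnected Complex.one_mem_slitPlane).isConnected.isPreconnected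

theorem indC (n : ℕ) : Pool.Agent.Y776.Fam.IndC Complex.slitPlane
    (fun (j : Fin (n + 1)) z => tower j z * Complex.log z) := by
  intro m c h
  by_contra hne
  have h0 : ∃ j, m j ≠ 0 := by
    by_contra hcon
    push Not at hcon
    exact hne (funext hcon)
  obtain ⟨J, hJ, hmax⟩ := Finset.exists_max_image (Finset.univ.filter fun j => m j ≠ 0) (fun j => (j : ℕ)) (by
    obtain ⟨j, hj⟩ := h0
    exact ⟨j, Finset.mem_filter.2 ⟨Finset.mem_univ _, hj⟩⟩)
  have hJ0 : m J ≠ 0 := (Finset.mem_filter.1 hJ).2
  set M : ℝ := ∑ j, |(m j : ℝ)| with hM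
  have hM0 : 0 ≤ M := Finset.sum_nonneg fun j _ => abs_nonneg _
  -- the lower bound
  have key : ∀ x : ℝ, 2 * M + 2 ≤ x → 1 / 2 ≤ |∑ j, (m j : ℝ) * R j x| := by
    intro x hx
    have hx2 : 2 ≤ x := by linarith
    have hx0 : 0 < x := by linarith
    have h1 : |∑ j ∈ Finset.univ.erase J, (m j : ℝ) * R j x| ≤ M * (R J x / x) := by
      refine (Finset.abs_sum_le_sum_abs _ _).trans ?_
      rw [hM, Finset.sum_mul]
      refine (Finset.sum_le_sum (fun j hj => ?_)).trans
        (Finset.sum_le_sum_of_subset_of_nonneg (Finset.erase_subset J Finset.univ) fun j _ _ => ?_)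
      · rw [abs_mul]
        by_cases hj0 : m j = 0
        · rw [hj0]
          simp
        · have h2 : (j : ℕ) ≤ J := hmax j (Finset.mem_filter.2 ⟨Finset.mem_univ _, hj0⟩)
          have h3 : (j : ℕ) ≠ J := fun h => (Finset.ne_of_mem_erase hj) (Fin.ext h)
          have h4 := R_lt (lt_of_le_of_ne h2 h3) hx2
          have h5 : |R j x| ≤ R J x / x := by
            rw [abs_of_nonneg (zero_le_one.trans (R_step j hx2).1), le_div_iff₀ hx0]
            linarith
          exact mul_le_mul_of_nonneg_left h5 (abs_nonneg _)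
      · have := (R_step J hx2).1
        positivity
    have h2 : ∑ j, (m j : ℝ) * R j x = (m J : ℝ) * R J x + ∑ j ∈ Finset.univ.erase J, (m j : ℝ) * R j x :=
      (Finset.add_sum_erase _ _ (Finset.mem_univ J)).symm
    have h3 : 1 ≤ |(m J : ℝ)| := by
      exact_mod_cast Int.one_le_abs hJ0
    have hR := (R_step J hx2).1
    have h4 : R J x ≤ |(m J : ℝ) * R J x| := by
      rw [abs_mul, abs_of_nonneg (by linarith : 0 ≤ R J x)]
      nlinarith
    have h5 : M * (R J x / x) ≤ R J x / 2 := by
      rw [← mul_div_assoc, div_le_div_iff₀ hx0 two_pos]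
      nlinarith
    rw [h2]
    have h6 := abs_sub_abs_le_abs_sub ((m J : ℝ) * R J x) (-∑ j ∈ Finset.univ.erase J, (m j : ℝ) * R j x)
    rw [abs_neg, sub_neg_eq_add] at h6
    linarith
  -- the relation at large real numbers
  have h1 : ∀ᶠ x : ℝ in atTop, 2 * ‖c‖ < Real.log x := Real.tendsto_log_atTop.eventually_gt_atTop _
  obtain ⟨x, hx1, hx2⟩ := (h1.and (eventually_ge_atTop (2 * M + 2))).exists
  have hx0 : 0 < x := by linarith
  have h2 := h (x : ℂ) (Complex.ofReal_mem_slitPlane.2 hx0)
  have h3 : ((∑ j, (m j : ℝ) * R j x : ℝ) : ℂ) * (Real.log x : ℂ) = c := by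
    rw [← h2, Complex.ofReal_sum, Finset.sum_mul]
    refine Finset.sum_congr rfl fun j _ => ?_
    change _ = (m j : ℂ) * (tower j (x : ℂ) * Complex.log (x : ℂ))
    rw [tower_real _ hx0.le, ← Complex.ofReal_log hx0.le]
    push_cast
    ring
  have h4 := congrArg norm h3
  rw [norm_mul, Complex.norm_real, Complex.norm_real, Real.norm_eq_abs, Real.norm_eq_abs] at h4
  have h5 := key x hx2
  have h6 : 0 ≤ ‖c‖ := norm_nonneg _
  have h7 : Real.log x ≤ |Real.log x| := le_abs_self _
  nlinarith

theorem loc (n : ℕ) : ∀ t ∈ Complex.slitPlane, Pool.Agent.Y124.LocInd (values n) t := by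
  refine Pool.Agent.X39.Near.loc_exp (Nat.succ_pos n) Complex.isOpen_slitPlane
    conn ⟨1, Complex.one_mem_slitPlane⟩
    (l := fun (j : Fin (n + 1)) z => tower j z * Complex.log z)
    (fun j z hz => (tower_an j z hz).mul (analyticAt_clog hz)) (indC n) (an n) (by
      rw [Fintype.card_option, Fintype.card_fin]) (G := ∅) Set.countable_empty (fun F _ z hz j => ?_) (fun F _ z hz j => ?_)
  · -- the logarithms
    have hlog : Complex.log z ∈ Pool.Agent.Y685.clo F (insert z (Set.range fun k => values n k z)) :=
      Pool.Agent.Y685.subset_clo (Or.inr ⟨none, rfl⟩)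
    refine mul_mem ?_ hlog
    obtain ⟨j, hj⟩ := j
    rcases j with _ | _ | j
    · exact one_mem _
    · change tower 1 z ∈ _
      rw [tower_one]
      exact Pool.Agent.Y685.subset_clo (Set.mem_insert _ _)
    · exact Pool.Agent.Y685.subset_clo (Or.inr ⟨some ⟨j, by omega⟩, rfl⟩)
  · -- the exponentials
    have hz0 : z ≠ 0 := Complex.slitPlane_ne_zero hz
    change Complex.exp (tower j z * Complex.log z) ∈ _
    rw [← tower_succ _ hz0]
    obtain ⟨j, hj⟩ := j
    rcases j with _ | j
    · change tower 1 z ∈ _
      rw [tower_one]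
      exact Pool.Agent.Y685.subset_clo (Set.mem_insert _ _)
    · exact Pool.Agent.Y685.subset_clo (Or.inr ⟨some ⟨j, by omega⟩, rfl⟩)

theorem ind (n : ℕ) : Pool.Agent.X255.RH.Indep Complex.slitPlane (values n) := by
  refine Pool.Agent.X255.RH.indep_of_aindepS fun P hP => loc n 1 Complex.one_mem_slitPlane P ?_
  filter_upwards [Complex.isOpen_slitPlane.mem_nhds Complex.one_mem_slitPlane] with t ht using hP t ht

open scoped Classical in
/-- **All roots of almost all polynomials.** For every degree `g ≥ 1`, every `n` and all complex numbers `ξ_0, ξ_1, …` there is a function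
`ω(T) → ∞` such that among the `(2 T + 1)^(g + 1)` integral polynomials with coefficients at most `T` at most the proportion `1 / ω(T)` is not
good. -/
theorem result (g : ℕ) (hg : 0 < g) (n : ℕ) (ξ : ℕ → ℂ) :
    ∃ ω : ℕ → ℕ, Tendsto ω atTop atTop ∧ Monotone ω ∧ ∀ T : ℕ,
      ω T * ((box g T).filter fun a => ¬ Good n ξ (ω T) T a).card ≤ (box g T).card :=
  Pool.Agent.X255.RH.main_all hg conn Complex.isOpen_slitPlane (fun _ => Complex.slitPlane)
    (fun _ => Pool.Agent.X255.RH.tame_slit) (an n) (ind n) ξ

end Pool.Agent.Results.MP_93d8d2_nt.TowersAtAllRoots
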